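import Pool.Agent.BER.StmtsE

/-!
# Squad BER (MP_be01ff_an), row INE: arbitrarily large eigenvalues in a symmetric subspace
-/

set_option autoImplicit false

namespace Pool.Agent.BER.H30

open Set Filter Topology MeasureTheory
open scoped InnerProductSpace ENNReal
open Pool.Agent.BE01 Pool.Agent.BEL Pool.Agent.BEF Pool.Agent.BEN Pool.Agent.BEH Pool.Agent.BEG

theorem ine_fin {d : ℕ} {Ω : Set (En d)} (h : Dom Ω) : IsFiniteMeasure (mu Ω) := by
  refine ⟨?_⟩
  unfold mu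
  rw [Measure.restrict_apply_univ]
  exact h.2.1.measure_lt_top

/-- A point of `Ω` different from `0`. -/
theorem exists_ne {d : ℕ} (hd : 2 ≤ d) {Ω : Set (En d)} (h : Dom Ω) : ∃ x ∈ Ω, x ≠ 0 := by
  have hd' : 0 < d := by omega
  have hnt : Nontrivial (En d) := by
    refine ⟨EuclideanSpace.single ⟨0, hd'⟩ (1 : ℝ), 0, fun h0 => ?_⟩
    have h1 := congrArg (fun f : En d => f ⟨0, hd'⟩) h0
    simp at h1
  by_contra hcon
  push Not at hcon
  obtain ⟨x, hx⟩ := h.2.2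
  have hx0 := hcon x hx
  subst hx0
  have hΩ : Ω = {0} := by
    ext y
    constructor
    · intro hy
      exact hcon y hy
    · rintro rfl
      exact hx
  have h1 : IsOpen ({0} : Set (En d)) := hΩ ▸ h.1
  exact not_isOpen_singleton (0 : En d) h1

/-- A polynomial which vanishes at `‖x‖²` for all `x ∈ Ω` is zero. -/
theorem poly_zero {d : ℕ} (hd : 2 ≤ d) {Ω : Set (En d)} (h : Dom Ω) (P : Polynomial ℝ)
    (hP : ∀ x ∈ Ω, P.eval (‖x‖ ^ 2) = 0) : P = 0 := by
  obtain ⟨x, hx, hx0⟩ := exists_ne hd h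
  have hn : 0 < ‖x‖ := norm_pos_iff.2 hx0
  have hc : Continuous fun t : ℝ => t • x := by fun_prop
  have ho : IsOpen {t : ℝ | t • x ∈ Ω} := h.1.preimage hc
  have h1 : (1 : ℝ) ∈ {t : ℝ | t • x ∈ Ω} := by
    show (1 : ℝ) • x ∈ Ω
    rw [one_smul]; exact hx
  have hmem : ({t : ℝ | t • x ∈ Ω} ∩ Ioi 0) ∈ 𝓝 (1 : ℝ) :=
    Filter.inter_mem (ho.mem_nhds h1) (Ioi_mem_nhds one_pos)
  have hinf : ({t : ℝ | t • x ∈ Ω} ∩ Ioi 0).Infinite := infinite_of_mem_nhds (1 : ℝ) hmem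
  apply Polynomial.eq_zero_of_infinite_isRoot
  refine Set.infinite_of_injOn_mapsTo (f := fun t : ℝ => ‖t • x‖ ^ 2) ?_ ?_ hinf
  · intro s hs t ht hst
    have hs0 : 0 < s := hs.2
    have ht0 : 0 < t := ht.2
    have h2 : ‖s • x‖ ^ 2 = ‖t • x‖ ^ 2 := hst
    rw [norm_smul, norm_smul, Real.norm_eq_abs, Real.norm_eq_abs, abs_of_pos hs0,
      abs_of_pos ht0] at h2
    have h3 : s * ‖x‖ = t * ‖x‖ := by
      have h4 : 0 ≤ s * ‖x‖ := by positivity
      have h5 : 0 ≤ t * ‖x‖ := by positivity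
      exact (pow_left_inj₀ h4 h5 two_ne_zero).1 h2
    exact mul_right_cancel₀ hn.ne' h3
  · intro t ht
    exact hP _ ht.1

/-- The functions `‖x‖^(2b)` are in `L²`. -/
theorem exists_pow {d : ℕ} {Ω : Set (En d)} (h : Dom Ω) (b : ℕ) :
    ∃ f : Lp ℝ 2 (mu Ω), f =ᵐ[mu Ω] fun x => (‖x‖ ^ 2) ^ b := by
  have hfin : IsFiniteMeasure (mu Ω) := ine_fin h
  obtain ⟨R, hR⟩ := h.2.1.exists_norm_le
  have hm : MemLp (fun x : En d => (‖x‖ ^ 2) ^ b) 2 (mu Ω) := by
    refine MemLp.of_bound (by fun_prop) ((R ^ 2) ^ b) ?_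
    unfold mu
    filter_upwards [ae_restrict_mem h.1.measurableSet] with x hx
    have h1 := hR x hx
    rw [Real.norm_eq_abs, abs_of_nonneg (by positivity)]
    gcongr
  exact ⟨hm.toLp _, hm.coeFn_toLp⟩

theorem ine (wxc : WxcStmt) (ice : IceStmt) : IneStmt := by
  intro d Ω K hd hΩ hK hpow B
  obtain ⟨C0, hC0, hw⟩ := wxc d Ω hd hΩ
  obtain ⟨X, _, _, W, Z, hX, hW, hS⟩ := hw Ω hΩ (subset_refl _)
  have hfin : IsFiniteMeasure (mu Ω) := ine_fin hΩ
  have hsym : ∀ h k, ⟪W.S h, k⟫_ℝ = ⟪h, W.S k⟫_ℝ := by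
    intro h k
    rw [← W.prp.RR h, ← W.prp.RR k, W.prp.R_symm, W.prp.R_symm]
  have hnn : ∀ h, 0 ≤ ⟪W.S h, h⟫_ℝ := by
    intro h
    rw [← W.prp.RR h, W.prp.R_symm]
    exact real_inner_self_nonneg
  have hinj : Function.Injective W.S := by
    intro h k hhk
    rw [← W.prp.RR h, ← W.prp.RR k] at hhk
    exact W.prp.R_inj (W.prp.R_inj hhk)
  have hst : ∀ h ∈ K, W.S h ∈ K := fun h hh => hK.slv h hh _ _ (hW.dom h) (hW.weak h)
  choose f hf using fun b : ℕ => exists_pow hΩ b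
  have hli : LinearIndependent ℝ (fun b : ℕ => (⟨f b, hpow b (f b) (hf b)⟩ : K)) := by
    rw [linearIndependent_iff']
    intro s g hg
    have h1 : ∑ i ∈ s, g i • f i = 0 := by
      have h2 := congrArg (fun u : K => (u : Lp ℝ 2 (mu Ω))) hg
      simpa using h2
    have h3 : ∀ᵐ x ∂(mu Ω), ∑ i ∈ s, g i * (‖x‖ ^ 2) ^ i = 0 := by
      have h4 : (fun x => ∑ i ∈ s, g i * (‖x‖ ^ 2) ^ i) =ᵐ[mu Ω]
          ((∑ i ∈ s, g i • f i : Lp ℝ 2 (mu Ω)) : En d → ℝ) := by
        have h5 : ((∑ i ∈ s, g i • f i : Lp ℝ 2 (mu Ω)) : En d → ℝ) =ᵐ[mu Ω]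
            ∑ i ∈ s, ((g i • f i : Lp ℝ 2 (mu Ω)) : En d → ℝ) := Lp.coeFn_finsetSum _ _
        have h6 : ∀ᵐ x ∂(mu Ω), ∀ i ∈ s, ((g i • f i : Lp ℝ 2 (mu Ω)) : En d → ℝ) x =
            g i * (‖x‖ ^ 2) ^ i := by
          rw [Finset.eventually_all]
          intro i _
          filter_upwards [Lp.coeFn_smul (g i) (f i), hf i] with x hx1 hx2
          rw [hx1, Pi.smul_apply, hx2, smul_eq_mul]
        filter_upwards [h5, h6] with x hx5 hx6
        rw [hx5, Finset.sum_apply]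
        exact Finset.sum_congr rfl fun i hi => (hx6 i hi).symm
      rw [h1] at h4
      filter_upwards [h4, Lp.coeFn_zero ℝ 2 (mu Ω)] with x hx1 hx2
      have hx3 : ((0 : Lp ℝ 2 (mu Ω)) : En d → ℝ) x = 0 := by rw [hx2]; rfl
      rw [hx3] at hx1
      exact hx1
    let P : Polynomial ℝ := ∑ i ∈ s, Polynomial.C (g i) * Polynomial.X ^ i
    have hPe : ∀ x : En d, P.eval (‖x‖ ^ 2) = ∑ i ∈ s, g i * (‖x‖ ^ 2) ^ i := by
      intro x
      simp only [P, Polynomial.eval_finsetSum, Polynomial.eval_mul, Polynomial.eval_C,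
        Polynomial.eval_pow, Polynomial.eval_X]
    have hcont : Continuous fun x : En d => P.eval (‖x‖ ^ 2) :=
      P.continuous.comp (by fun_prop)
    have hP : ∀ x ∈ Ω, P.eval (‖x‖ ^ 2) = 0 := by
      have ho : IsOpen (Ω ∩ {x : En d | P.eval (‖x‖ ^ 2) ≠ 0}) :=
        hΩ.1.inter (isOpen_compl_singleton.preimage hcont)
      have hz : volume (Ω ∩ {x : En d | P.eval (‖x‖ ^ 2) ≠ 0}) = 0 := by
        have h7 : ∀ᵐ x ∂(volume.restrict Ω), P.eval (‖x‖ ^ 2) = 0 := by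
          have h8 := h3
          unfold mu at h8
          filter_upwards [h8] with x hx
          rw [hPe]; exact hx
        rw [ae_restrict_iff' hΩ.1.measurableSet] at h7
        have h9 := ae_iff.1 h7
        refine measure_mono_null (fun x hx => ?_) h9
        intro h10
        exact hx.2 (h10 hx.1)
      have hem := (ho.measure_eq_zero_iff volume).1 hz
      intro x hx
      by_contra hne
      have : x ∈ (Ω ∩ {x : En d | P.eval (‖x‖ ^ 2) ≠ 0}) := ⟨hx, hne⟩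
      rw [hem] at this
      exact this
    have hP0 := poly_zero hd hΩ P hP
    intro i hi
    have h11 := congrArg (fun q : Polynomial ℝ => q.coeff i) hP0
    simp only [P, Polynomial.finsetSum_coeff, Polynomial.coeff_C_mul_X_pow,
      Polynomial.coeff_zero] at h11
    rw [Finset.sum_eq_single i] at h11
    · simpa using h11
    · intro j _ hj
      rw [if_neg (fun h => hj h.symm)]
    · intro h
      exact absurd hi h
  have hnf : ¬ FiniteDimensional ℝ K := by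
    intro hf'
    have := hli.finite
    exact not_finite ℕ
  have hM : 0 < max B 1 := lt_max_of_lt_right one_pos
  obtain ⟨μ, hμ0, hμ1, u, huK, hu0, hu⟩ := ice (Lp ℝ 2 (mu Ω)) W.S K hW.comp hsym hnn hinj
    hK.closed hst hnf (1 / max B 1) (by positivity)
  refine ⟨1 / μ, ?_, u, huK, hu0, ?_⟩
  · have h1 : max B 1 < 1 / μ := by
      rw [lt_div_iff₀ hM] at hμ1
      rw [lt_div_iff₀ hμ0]
      linarith [mul_comm μ (max B 1)]
    exact lt_of_le_of_lt (le_max_left _ _) h1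
  · rw [hW.eig, hu, smul_smul, one_div, inv_mul_cancel₀ hμ0.ne', one_smul]

end Pool.Agent.BER.H30

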